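import Mathlib

set_option autoImplicit false

open MeasureTheory Filter Topology
open scoped InnerProductSpace

namespace Pool.Agent.H429N

noncomputable section

/-- the 2-adic integers, with the Borel sigma algebra and the Haar probability measure -/
abbrev X := ℤ_[2]

instance instMeasX : MeasurableSpace X := borel X

instance instBorelX : BorelSpace X := ⟨rfl⟩

def mu : Measure X := Measure.addHaarMeasure ⊤

instance instHaarX : mu.IsAddHaarMeasure := by unfold mu; infer_instance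

instance instProbX : IsProbabilityMeasure mu := by
  constructor
  have h := Measure.addHaarMeasure_self (K₀ := (⊤ : TopologicalSpace.PositiveCompacts X))
  simpa [mu] using h

abbrev H := Lp ℂ 2 mu

/-- the sign of the binary digit number `b` -/
def r (b : ℕ) (x : X) : ℝ := if (PadicInt.toZModPow (b + 1) x).val < 2 ^ b then 1 else -1

/-- the exponent of the weight: level `j` contributes `z j / 2^(j^2)` times the sign of the digit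
number `j^2 + 2 j = (j+1)^2 - 1` -/
def Psi (z : ℕ → ℂ) (x : X) : ℂ := ∑' j : ℕ, (z j / 2 ^ (j ^ 2)) * (r (j ^ 2 + 2 * j) x : ℂ)

/-- the weight of the `n`-th power -/
def Phi (z : ℕ → ℂ) (n : ℕ) (x : X) : ℂ := Complex.exp (∑ i ∈ Finset.range n, Psi z (x + (i : X)))

/-- growth condition on the parameters -/
def Zb (z : ℕ → ℂ) : Prop := ∀ k, ‖z k‖ ≤ 2 ^ k

/-- `T` is the weighted translation operator -/
def IsOp (z : ℕ → ℂ) (T : H →L[ℂ] H) : Prop :=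
  ∀ (n : ℕ) (f : H), ((T ^ n) f : X → ℂ) =ᵐ[mu] fun x => Phi z n x * f (x + (n : X))

/-! ### the pieces -/

def S_r1 : Prop := ∀ (b : ℕ) (x : X), r b (x + 2 ^ b) = - r b x

def S_r2 : Prop := ∀ b : ℕ, Continuous (r b)

/-- the digit `b` rarely changes when one adds less than `2^a` -/
def S_r3 : Prop := ∀ a b : ℕ, a ≤ b →
  mu {x | ∃ i < 2 ^ a, r b (x + (i : ℕ)) ≠ r b x} ≤ ENNReal.ofReal (2 ^ a / 2 ^ b)

/-- basic facts on the exponent -/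
def S_psi : Prop := ∀ z : ℕ → ℂ, Zb z → Continuous (Psi z) ∧ (∀ x, ‖Psi z x‖ ≤ 4) ∧
  ∀ x, Summable fun j : ℕ => (z j / 2 ^ (j ^ 2)) * (r (j ^ 2 + 2 * j) x : ℂ)

/-- the sum of the exponent along `2^(k^2)` steps: the lower levels cancel, the upper ones are small -/
def S_coc : Prop := ∀ z : ℕ → ℂ, Zb z → ∀ (k : ℕ) (x : X),
  ‖(∑ i ∈ Finset.range (2 ^ (k ^ 2)), Psi z (x + (i : X))) -
    z k * (((∑ i ∈ Finset.range (2 ^ (k ^ 2)), r (k ^ 2 + 2 * k) (x + (i : X))) / 2 ^ (k ^ 2) : ℝ) : ℂ)‖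
    ≤ 2 / 2 ^ k

def S_op : Prop := ∀ z : ℕ → ℂ, Zb z → ∃ T : H →L[ℂ] H, IsOp z T

/-- the translation by `2^a` tends strongly to the identity -/
def S_rigid : Prop := ∀ f : H,
  Tendsto (fun a : ℕ => ∫ x, ‖f (x + 2 ^ a) - f x‖ ^ 2 ∂mu) atTop (𝓝 0)

/-- the digits tend weakly to zero -/
def S_weak : Prop := ∀ F : X → ℂ, Integrable F mu →
  Tendsto (fun b : ℕ => ∫ x, (r b x : ℂ) * F x ∂mu) atTop (𝓝 0)

/-- the weight along `2^(k^2)` steps, for the levels `k` with the fixed parameter `zeta` -/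
def S_weight : Prop := ∀ z : ℕ → ℂ, Zb z → ∀ (zeta : ℂ), ∃ C : ℝ, 0 ≤ C ∧ ∀ k : ℕ, z k = zeta → ∀ x : X,
  ‖Phi z (2 ^ (k ^ 2)) x‖ ≤ C ∧
  ‖Phi z (2 ^ (k ^ 2)) x - (Complex.cosh zeta + Complex.sinh zeta * (r (k ^ 2 + 2 * k) x : ℂ))‖ ≤ C ∧
  ((∀ i < 2 ^ (k ^ 2), r (k ^ 2 + 2 * k) (x + (i : ℕ)) = r (k ^ 2 + 2 * k) x) →
    ‖Phi z (2 ^ (k ^ 2)) x - (Complex.cosh zeta + Complex.sinh zeta * (r (k ^ 2 + 2 * k) x : ℂ))‖ ≤ C / 2 ^ k)

def S_lim : Prop := ∀ z : ℕ → ℂ, Zb z → ∀ T : H →L[ℂ] H, IsOp z T → ∀ (f : H) (zeta : ℂ) (ε : ℝ), 0 < ε →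
  ∀ᶠ k : ℕ in atTop, z k = zeta →
    ‖⟪f, (T ^ (2 ^ (k ^ 2))) f⟫_ℂ - Complex.cosh zeta * (‖f‖ ^ 2 : ℝ)‖ < ε

def S_seq : Prop := ∃ z : ℕ → ℂ, Zb z ∧ ∀ (w : ℂ) (ε : ℝ), 0 < ε →
  ∃ zeta : ℂ, ‖Complex.cosh zeta - w‖ < ε ∧ ∃ᶠ k : ℕ in atTop, z k = zeta

def S_H : Prop := ∃ T : H →L[ℂ] H, ∀ f : H, ‖f‖ = 1 → Dense (Set.range fun n : ℕ => ⟪f, (T ^ n) f⟫_ℂ)

def S_ell : Prop := Nonempty (H ≃ₗᵢ[ℂ] lp (fun _ : ℕ => ℂ) 2)

end

end Pool.Agent.H429N
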